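import Pool.Agent.helper60.DA.SpecV

/-!
# Row dv:GX
-/

set_option autoImplicit false

namespace Pool.Agent.helper60.DA

open Polynomial Finset Pool.Agent.helper60.DK

theorem GX_aux1 (p : ℕ) [hp : Fact p.Prime] (m : ℕ) (h : 2 * m < p) :
    ((m.centralBinom : ℕ) : ZMod p) ≠ 0 := by
  intro h0
  rw [ZMod.natCast_eq_zero_iff] at h0
  have h1 : m.centralBinom ∣ (2 * m).factorial := by
    rw [Nat.centralBinom]
    have h2 := Nat.choose_mul_factorial_mul_factorial (n := 2 * m) (k := m) (by omega)
    exact ⟨m.factorial * (2 * m - m).factorial, by rw [← h2, mul_assoc]⟩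
  have h3 := (hp.out.dvd_factorial).mp (h0.trans h1)
  omega

theorem GX_aux2 (n : ℕ) : cc n n = (n.centralBinom : ℤ) * (n.centralBinom : ℤ) := by
  unfold cc dc
  rw [Nat.choose_self, one_mul, Nat.centralBinom, two_mul]

theorem GX : GX_stmt := by
  intro p hp h5 h3
  have hn : 3 * nn p + 1 = p := by unfold nn; omega
  have hh2 : 2 * hh p + 1 = p := two_hh h5
  refine ⟨∑ k ∈ range (nn p + 1), C (bb p k) * (X ^ (2 * k) * (1 + X) ^ (3 * (nn p - k))), ?_, ?_⟩
  · unfold Wp
    rw [mul_sum]
    refine sum_congr rfl fun k hk => ?_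
    have hk' := mem_range.mp hk
    unfold ff
    have e : 3 * (hh p - k) = hh p + 3 * (nn p - k) := by omega
    rw [e, pow_add]
    ring
  · rw [eval_finset_sum, Finset.sum_eq_single (nn p)]
    · have hb : bb p (nn p) ≠ 0 := by
        unfold bb
        rw [GX_aux2]
        push_cast
        have h1 := GX_aux1 p (nn p) (by omega)
        have h2 : ((-27 / 16 : ZMod p)) ≠ 0 := by
          have t2 := two_ne (p := p) h5
          have t3 := three_ne (p := p) h5
          have e27 : (-27 : ZMod p) = -(3 ^ 3) := by norm_num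
          have e16 : (16 : ZMod p) = 2 ^ 4 := by norm_num
          rw [e27, e16]
          exact div_ne_zero (neg_ne_zero.mpr (pow_ne_zero _ t3)) (pow_ne_zero _ t2)
        exact mul_ne_zero (mul_ne_zero h1 h1) (pow_ne_zero _ h2)
      have e1 : ((-1 : ZMod p)) ^ (2 * nn p) = 1 := by rw [pow_mul]; norm_num
      simp only [eval_mul, eval_C, eval_pow, eval_X, eval_add, eval_one, Nat.sub_self, mul_zero,
        pow_zero, mul_one, e1]
      exact hb
    · intro k hk hk1
      have hk' := mem_range.mp hk
      have e : 3 * (nn p - k) ≠ 0 := by omega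
      simp only [eval_mul, eval_C, eval_pow, eval_X, eval_add, eval_one]
      rw [add_neg_cancel, zero_pow e, mul_zero, mul_zero]
    · intro h
      simp at h

end Pool.Agent.helper60.DA
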