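import Pool.Agent.helper60.DA.SpecW

/-!
# Row dw:JR
-/

set_option autoImplicit false

namespace Pool.Agent.helper60.DA

open Polynomial Finset Pool.Agent.helper60.DK

theorem JR_deg {R : Type*} [CommRing R] (f : R[X]) (d : ℕ) (h : f.natDegree ≤ d) :
    (Dx f).natDegree ≤ d := by
  unfold Dx
  by_cases h0 : f.natDegree = 0
  · rw [derivative_of_natDegree_zero h0, mul_zero]
    simp
  · have h1 := natDegree_derivative_lt h0
    refine natDegree_mul_le.trans ?_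
    have h2 := natDegree_X_le (R := R)
    omega

theorem JR_jop {R : Type*} [CommRing R] (y : R[X]) :
    Jop y = C 4 * (((1 + X) * ((1 + X) * (1 + 4 * X))) *
        (C 2 * (y * Dx (Dx y)) + C (-1) * (Dx y * Dx y))) +
      (C 24 * ((X * ((1 + X) * (1 + 2 * X))) * (y * Dx y)) +
        (C 12 * (X * (1 * 1)) + (C 51 * (X * (X * 1)) + C 36 * (X * (X * X)))) * (y * y)) := by
  unfold Jop Dx
  rw [derivative_mul, derivative_X]
  simp only [map_ofNat, map_neg, map_one]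
  ring

theorem JR_dx {R : Type*} [CommRing R] (c : R) (f g : R[X]) : Dx (C c * f - g) = C c * Dx f - Dx g := by
  unfold Dx
  rw [derivative_sub, derivative_C_mul]
  ring

theorem JR (hRV : RV_stmt) : JR_stmt := by
  intro h y hy
  obtain ⟨hmul, hadd, hC, ⟨hX, h1X, h4X, h2X⟩, hD, -⟩ := hRV ℤ
  have d1 : (1 + X : ℤ[X]).natDegree ≤ 1 := (natDegree_add_le _ _).trans (max_le (by simp) natDegree_X_le)
  have d4 : (1 + 4 * X : ℤ[X]).natDegree ≤ 1 := by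
    refine (natDegree_add_le _ _).trans (max_le (by simp) ?_)
    have : (4 * X : ℤ[X]) = C 4 * X := by rw [map_ofNat]
    rw [this]
    exact (natDegree_C_mul_le _ _).trans natDegree_X_le
  have d2 : (1 + 2 * X : ℤ[X]).natDegree ≤ 1 := by
    refine (natDegree_add_le _ _).trans (max_le (by simp) ?_)
    have : (2 * X : ℤ[X]) = C 2 * X := by rw [map_ofNat]
    rw [this]
    exact (natDegree_C_mul_le _ _).trans natDegree_X_le
  have dX : (X : ℤ[X]).natDegree ≤ 1 := natDegree_X_le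
  have dO : (1 : ℤ[X]).natDegree ≤ 1 := by simp
  have dm : ∀ (a b : ℕ) (f g : ℤ[X]), f.natDegree ≤ a → g.natDegree ≤ b → (f * g).natDegree ≤ a + b :=
    fun a b f g hf hg => natDegree_mul_le.trans (Nat.add_le_add hf hg)
  have dc : ∀ (a : ℕ) (c : ℤ) (f : ℤ[X]), f.natDegree ≤ a → (C c * f).natDegree ≤ a :=
    fun a c f hf => (natDegree_C_mul_le _ _).trans hf
  have da : ∀ (a : ℕ) (f g : ℤ[X]), f.natDegree ≤ a → g.natDegree ≤ a → (f + g).natDegree ≤ a :=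
    fun a f g hf hg => (natDegree_add_le _ _).trans (max_le hf hg)
  have hO : rv 1 (1 : ℤ[X]) = 4 * X := by
    have e := hadd 1 (1 : ℤ[X]) X
    rw [h1X, hX] at e
    linear_combination -e
  have dy1 := JR_deg y _ hy
  have dy2 := JR_deg _ _ dy1
  have e63 : 6 * h + 3 = (1 + (1 + 1)) + (3 * h + 3 * h) := by ring
  set N := rv (3 * h) y with hN
  have w1 : rv (3 * h) (Dx y) = C ((3 * h : ℕ) : ℤ) * N - Dx N := hD _ _
  have w2 : rv (3 * h) (Dx (Dx y)) = C ((3 * h : ℕ) : ℤ) * (C ((3 * h : ℕ) : ℤ) * N - Dx N)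
      - (C ((3 * h : ℕ) : ℤ) * Dx N - Dx (Dx N)) := by
    rw [hD, w1, JR_dx]
  have q1 : rv (1 + (1 + 1)) ((1 + X) * ((1 + X) * (1 + 4 * X)) : ℤ[X]) =
      (1 + 4 * X) * ((1 + 4 * X) * (4 * (1 + X))) := by
    rw [hmul _ _ _ _ d1 (dm _ _ _ _ d1 d4), hmul _ _ _ _ d1 d4, h1X, h4X]
  have q2 : rv (1 + (1 + 1)) (X * ((1 + X) * (1 + 2 * X)) : ℤ[X]) =
      1 * ((1 + 4 * X) * (2 * (1 + 2 * X))) := by
    rw [hmul _ _ _ _ dX (dm _ _ _ _ d1 d2), hmul _ _ _ _ d1 d2, h1X, h2X, hX]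
  have q3 : rv (1 + (1 + 1)) (C 12 * (X * (1 * 1)) + (C 51 * (X * (X * 1)) + C 36 * (X * (X * X))) : ℤ[X]) =
      C 12 * (1 * (4 * X * (4 * X))) + (C 51 * (1 * (1 * (4 * X))) + C 36 * (1 * (1 * 1))) := by
    rw [hadd, hadd, hC, hC, hC, hmul _ _ _ _ dX (dm _ _ _ _ dO dO), hmul _ _ _ _ dO dO,
      hmul _ _ _ _ dX (dm _ _ _ _ dX dO), hmul _ _ _ _ dX dO,
      hmul _ _ _ _ dX (dm _ _ _ _ dX dX), hmul _ _ _ _ dX dX, hX, hO]
  have g1 : ((1 + X) * ((1 + X) * (1 + 4 * X)) : ℤ[X]).natDegree ≤ 1 + (1 + 1) :=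
    dm _ _ _ _ d1 (dm _ _ _ _ d1 d4)
  have g2 : (X * ((1 + X) * (1 + 2 * X)) : ℤ[X]).natDegree ≤ 1 + (1 + 1) :=
    dm _ _ _ _ dX (dm _ _ _ _ d1 d2)
  have g3 : (C 12 * (X * (1 * 1)) + (C 51 * (X * (X * 1)) + C 36 * (X * (X * X))) : ℤ[X]).natDegree
      ≤ 1 + (1 + 1) :=
    da _ _ _ (dc _ _ _ (dm _ _ _ _ dX (dm _ _ _ _ dO dO)))
      (da _ _ _ (dc _ _ _ (dm _ _ _ _ dX (dm _ _ _ _ dX dO)))
        (dc _ _ _ (dm _ _ _ _ dX (dm _ _ _ _ dX dX))))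
  have b1 : (C 2 * (y * Dx (Dx y)) + C (-1) * (Dx y * Dx y) : ℤ[X]).natDegree ≤ 3 * h + 3 * h :=
    da _ _ _ (dc _ _ _ (dm _ _ _ _ hy dy2)) (dc _ _ _ (dm _ _ _ _ dy1 dy1))
  rw [JR_jop, e63, hadd, hC, hmul _ _ _ _ g1 b1, hadd, hC, hC, hmul _ _ _ _ hy dy2,
    hmul _ _ _ _ dy1 dy1, hadd, hC, hmul _ _ _ _ g2 (dm _ _ _ _ hy dy1), hmul _ _ _ _ hy dy1,
    hmul _ _ _ _ g3 (dm _ _ _ _ hy hy), hmul _ _ _ _ hy hy, q1, q2, q3, ← hN, w2, w1]
  have ec : (C ((3 * h : ℕ) : ℤ) : ℤ[X]) = 3 * C (h : ℤ) := by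
    push_cast
    rw [map_mul]
    simp
  have eP : (C (2 * (h : ℤ) + 1) : ℤ[X]) = 2 * C (h : ℤ) + 1 := by
    rw [map_add, map_mul]
    simp
  unfold Jr
  rw [ec, eP]
  simp only [map_ofNat, map_neg, map_one]
  ring

end Pool.Agent.helper60.DA
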