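import Pool.Agent.helper60.DA.SpecV

/-!
# Row dv:NPF
-/

set_option autoImplicit false

namespace Pool.Agent.helper60.DA

open Polynomial Finset Pool.Agent.helper60.DK

theorem NPF_cop {F : Type*} [Field F] (a : F) (f : F[X]) (h : f.eval a ≠ 0) (n : ℕ) :
    IsCoprime ((X - C a) ^ n) f := by
  refine IsCoprime.pow_left ?_
  rw [(prime_X_sub_C a).irreducible.coprime_iff_not_dvd, dvd_iff_isRoot]
  exact h

theorem NPF_eval {F : Type*} [Field F] (a : F) (f : F[X]) (n : ℕ) (hn : n ≠ 0)
    (h : (X - C a) ^ n ∣ f) : f.eval a = 0 := by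
  have h1 : (X - C a) ∣ f := (dvd_pow_self _ hn).trans h
  exact dvd_iff_isRoot.mp h1

theorem NPF_der {F : Type*} [Field F] (a : F) (f : F[X]) (n : ℕ)
    (h : (X - C a) ^ (n + 1) ∣ f) : (X - C a) ^ n ∣ derivative f := by
  have h1 := pow_sub_one_dvd_derivative_of_pow_dvd h
  rwa [Nat.add_sub_cancel] at h1

theorem NPF (hWL : WL_stmt) (hGX : GX_stmt) : NPF_stmt := by
  intro p hp h7 h3 a hdvd
  have h5 : 5 ≤ p := by omega
  have hh2 : 2 * hh p + 1 = p := two_hh h5
  have hhp : hh p < p := by omega
  have f4 := four_ne (p := p) h5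
  unfold Pp at hdvd
  by_cases ha : a = -1 / 4
  · have hW : (Wp p).eval a ≠ 0 := by rw [ha]; exact (hWL p h5).2 h3
    have hd := (NPF_cop a _ hW p).dvd_of_dvd_mul_right hdvd
    have hne : ((1 + 4 * X : (ZMod p)[X]) ^ hh p) ≠ 0 := by
      refine pow_ne_zero _ ?_
      intro h0
      have := congrArg (eval 0) h0
      simp at this
    have h1 := natDegree_le_of_dvd hd hne
    rw [natDegree_pow, natDegree_X_sub_C, mul_one] at h1
    have h2 : ((1 + 4 * X : (ZMod p)[X]) ^ hh p).natDegree ≤ hh p := by
      refine natDegree_pow_le.trans ?_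
      have h6 : (1 + 4 * X : (ZMod p)[X]).natDegree ≤ 1 := by
        refine (natDegree_add_le _ _).trans (max_le (by simp) ?_)
        have : (4 * X : (ZMod p)[X]) = C 4 * X := by rw [map_ofNat]
        rw [this]
        exact (natDegree_C_mul_le _ _).trans natDegree_X_le
      calc hh p * (1 + 4 * X : (ZMod p)[X]).natDegree ≤ hh p * 1 := Nat.mul_le_mul_left _ h6
        _ = hh p := mul_one _
    omega
  · have hl : ((1 + 4 * X : (ZMod p)[X]) ^ hh p).eval a ≠ 0 := by
      rw [eval_pow]
      refine pow_ne_zero _ ?_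
      intro h0
      apply ha
      have h1 : 1 + 4 * a = 0 := by simpa using h0
      rw [eq_div_iff f4]
      linear_combination h1
    have hd := (NPF_cop a _ hl p).dvd_of_dvd_mul_left hdvd
    by_cases ha0 : a = 0
    · have h1 := NPF_eval a _ p (by omega) hd
      rw [ha0, ← coeff_zero_eq_eval_zero, Wp_coeff_zero] at h1
      exact one_ne_zero h1
    · by_cases ha1 : a = -1
      · obtain ⟨G, hG, hG1⟩ := hGX p h5 h3
        rw [hG] at hd
        have h1 := (NPF_cop a G (by rw [ha1]; exact hG1) p).dvd_of_dvd_mul_right hd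
        have hne : ((1 + X : (ZMod p)[X]) ^ hh p) ≠ 0 := by
          refine pow_ne_zero _ ?_
          intro h0
          have := congrArg (eval 0) h0
          simp at this
        have h2 := natDegree_le_of_dvd h1 hne
        rw [natDegree_pow, natDegree_X_sub_C, mul_one, natDegree_one_add_X_pow] at h2
        omega
      · have hW := S_eq_W (p := p) h5
        have hd3 : (X - C a) ^ 3 ∣ Wp p := (pow_dvd_pow _ (by omega)).trans hd
        have hd2 : (X - C a) ^ 2 ∣ derivative (Wp p) := NPF_der a _ 2 hd3
        have hd1 : (X - C a) ^ 1 ∣ derivative (derivative (Wp p)) := NPF_der a _ 1 hd2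
        have hx : a * (1 + a) * (1 + 4 * a) ≠ 0 := by
          refine mul_ne_zero (mul_ne_zero ha0 ?_) ?_
          · intro h0
            apply ha1
            linear_combination h0
          · intro h0
            apply ha
            rw [eq_div_iff f4]
            linear_combination h0
        refine second_ne h5 a hx ?_ ?_ ?_
        · rw [hW]; exact NPF_eval a _ 3 (by norm_num) hd3
        · rw [hW]; exact NPF_eval a _ 2 (by norm_num) hd2
        · rw [hW]; exact NPF_eval a _ 1 (by norm_num) hd1

end Pool.Agent.helper60.DA
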